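import Pool.Agent.Y504.CO.Stm6

/-! The Baire category part (helper917, job of helper504). -/

set_option autoImplicit false

open Set Topology Filter

universe u

namespace Pool.Agent.Y917.CO

theorem core {X D : Type*} [TopologicalSpace X] [SecondCountableTopology X] [TopologicalSpace D]
    (P Q : D → Set X)
    (h : ∀ f : D, ∀ z ∈ Q f, z ∉ closure (P f) → ∀ O : Set X, IsOpen O → z ∈ O →
      ∀ U : Set D, IsOpen U → f ∈ U → ∃ g ∈ U, ∃ W : Set D, IsOpen W ∧ g ∈ W ∧
        ∀ g' ∈ W, (O ∩ P g').Nonempty) :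
    ∃ R : ℕ → Set D, (∀ j, IsOpen (R j)) ∧ (∀ j, Dense (R j)) ∧
      ∀ f, (∀ j, f ∈ R j) → Q f ⊆ closure (P f) := by
  obtain ⟨O, hO⟩ : ∃ O : ℕ → Set X, insert ∅ (TopologicalSpace.countableBasis X) = range O :=
    ((TopologicalSpace.countable_countableBasis X).insert ∅).exists_eq_range ⟨∅, mem_insert _ _⟩
  have hOo : ∀ j, IsOpen (O j) := by
    intro j
    have h1 : O j ∈ insert ∅ (TopologicalSpace.countableBasis X) := hO ▸ mem_range_self j
    rcases h1 with h1 | h1
    · rw [h1]; exact isOpen_empty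
    · exact (TopologicalSpace.isBasis_countableBasis X).isOpen h1
  let A : ℕ → Set D := fun j => interior {g | (O j ∩ P g).Nonempty}
  refine ⟨fun j => A j ∪ (closure (A j))ᶜ, ?_, ?_, ?_⟩
  · intro j
    exact isOpen_interior.union isClosed_closure.isOpen_compl
  · intro j
    rw [dense_iff_inter_open]
    rintro V hV ⟨v, hv⟩
    by_cases hc : v ∈ closure (A j)
    · obtain ⟨w, hw1, hw2⟩ := mem_closure_iff.1 hc V hV hv
      exact ⟨w, hw1, Or.inl hw2⟩
    · exact ⟨v, hv, Or.inr hc⟩
  · intro f hf z hz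
    by_contra hcon
    obtain ⟨o, ho, hzo, hsub⟩ := (TopologicalSpace.isBasis_countableBasis X).exists_subset_of_mem_open
      (show z ∈ (closure (P f))ᶜ from hcon) isClosed_closure.isOpen_compl
    obtain ⟨j, rfl⟩ : o ∈ range O := hO ▸ mem_insert_of_mem _ ho
    have hfA : f ∉ A j := by
      intro hfA
      obtain ⟨y, hy1, hy2⟩ := interior_subset hfA
      exact hsub hy1 (subset_closure hy2)
    have hfU : f ∈ (closure (A j))ᶜ := (hf j).resolve_left hfA
    obtain ⟨g, hgU, W, hW, hgW, hg⟩ := h f z hz hcon (O j) (hOo j) hzo _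
      isClosed_closure.isOpen_compl hfU
    exact hgU (subset_closure (mem_interior.2 ⟨W, hg, hW, hgW⟩))

theorem main : Pool.Agent.Y504.CO.S_BA.{u} := by
  intro D t X _ _ P Q h
  exact core P Q h

end Pool.Agent.Y917.CO
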